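import Mathlib

/-!
Sums over separated points of products along the multiplication by `b` modulo one, for functions
which are small away from a finite invariant set.
-/

set_option autoImplicit false

open Finset

namespace Pool.Agent.Q263.MD

/-- separated modulo one -/
def Sepd (ρ : ℝ) (X : Finset ℝ) : Prop := ∀ x ∈ X, ∀ y ∈ X, x ≠ y → ∀ n : ℤ, ρ ≤ |x - y - n|

/-- close modulo one -/
def Near (r p x : ℝ) : Prop := ∃ n : ℤ, |x - p - n| < r

/-- the sum -/
noncomputable def Sm (b : ℕ) (f : ℝ → ℝ) (m : ℕ) (X : Finset ℝ) : ℝ :=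
  ∑ x ∈ X, ∏ i ∈ range m, f ((b : ℝ) ^ i * x)

lemma Sepd.mono {ρ : ℝ} {X Y : Finset ℝ} (h : Sepd ρ X) (hY : Y ⊆ X) : Sepd ρ Y :=
  fun x hx y hy => h x (hY hx) y (hY hy)

lemma Near.mono {r r' p x : ℝ} (h : Near r p x) (hr : r ≤ r') : Near r' p x := by
  obtain ⟨n, hn⟩ := h
  exact ⟨n, lt_of_lt_of_le hn hr⟩

/-- multiplication by `b` on small arcs -/
lemma Sepd.image {b : ℕ} (hb : 1 ≤ b) {ρ : ℝ} {X : Finset ℝ} (h : Sepd ρ X)
    (hc : ∀ x ∈ X, ∀ y ∈ X, ∃ n : ℤ, |x - y - n| < 1 / (2 * b)) :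
    Sepd (b * ρ) (X.image (fun x => (b : ℝ) * x)) := by
  classical
  have hb0 : (0 : ℝ) < b := by exact_mod_cast hb
  intro u hu v hv huv n
  rw [Finset.mem_image] at hu hv
  obtain ⟨x, hx, rfl⟩ := hu
  obtain ⟨y, hy, rfl⟩ := hv
  have hxy : x ≠ y := by
    rintro rfl
    exact huv rfl
  obtain ⟨n0, hn0⟩ := hc x hx y hy
  have h1 := h x hx y hy hxy n0
  set δ := x - y - n0 with hδ
  have e1 : (b : ℝ) * x - b * y - n = b * δ + (((b : ℤ) * n0 - n : ℤ) : ℝ) := by
    rw [hδ]
    push_cast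
    ring
  rw [e1]
  have h2 : |(b : ℝ) * δ| = b * |δ| := by rw [abs_mul, abs_of_pos hb0]
  have h3 : (b : ℝ) * |δ| < 1 / 2 := by
    have := mul_lt_mul_of_pos_left hn0 hb0
    have e2 : (b : ℝ) * (1 / (2 * b)) = 1 / 2 := by field_simp
    rwa [e2] at this
  have h4 : (b : ℝ) * ρ ≤ b * |δ| := mul_le_mul_of_nonneg_left h1 hb0.le
  by_cases hz : (b : ℤ) * n0 - n = 0
  · rw [hz, Int.cast_zero, add_zero, h2]
    exact h4
  · have h5 : (1 : ℝ) ≤ |(((b : ℤ) * n0 - n : ℤ) : ℝ)| := by
      rw [← Int.cast_abs]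
      exact_mod_cast Int.one_le_abs hz
    have h6 := abs_sub_abs_le_abs_sub (((b : ℤ) * n0 - n : ℤ) : ℝ) (-((b : ℝ) * δ))
    rw [abs_neg, h2] at h6
    have e3 : (((b : ℤ) * n0 - n : ℤ) : ℝ) - -((b : ℝ) * δ) =
        b * δ + (((b : ℤ) * n0 - n : ℤ) : ℝ) := by ring
    rw [e3] at h6
    linarith

lemma sum_image {b : ℕ} (hb : 1 ≤ b) (f : ℝ → ℝ) (m : ℕ) (X : Finset ℝ) :
    Sm b f m (X.image (fun x => (b : ℝ) * x)) =
      ∑ x ∈ X, ∏ i ∈ range m, f ((b : ℝ) ^ i * ((b : ℝ) * x)) := by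
  classical
  have hb0 : (0 : ℝ) < b := by exact_mod_cast hb
  unfold Sm
  rw [Finset.sum_image]
  intro x _ y _ h
  exact mul_left_cancel₀ hb0.ne' h

lemma prod_succ' (b : ℕ) (f : ℝ → ℝ) (m : ℕ) (x : ℝ) :
    ∏ i ∈ range (m + 1), f ((b : ℝ) ^ i * x) =
      f x * ∏ i ∈ range m, f ((b : ℝ) ^ i * ((b : ℝ) * x)) := by
  rw [Finset.prod_range_succ', mul_comm]
  congr 1
  · rw [pow_zero, one_mul]
  · refine Finset.prod_congr rfl fun i _ => ?_
    rw [pow_succ, mul_assoc]

/-- one step on a set of diameter less than `1 / (2 b)` -/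
lemma step {b : ℕ} (hb : 1 ≤ b) (f : ℝ → ℝ) (hf0 : ∀ x, 0 ≤ f x) (m : ℕ) (X : Finset ℝ)
    (τ : ℝ) (hτ : ∀ x ∈ X, f x ≤ τ) :
    Sm b f (m + 1) X ≤ τ * Sm b f m (X.image (fun x => (b : ℝ) * x)) := by
  classical
  rw [sum_image hb, Finset.mul_sum]
  unfold Sm
  refine Finset.sum_le_sum fun x hx => ?_
  rw [prod_succ']
  exact mul_le_mul_of_nonneg_right (hτ x hx) (Finset.prod_nonneg fun i _ => hf0 _)

/-- **The bound.** -/
theorem main {b : ℕ} (hb : 2 ≤ b) (P : Finset ℝ) (hPne : P.Nonempty) (κ τ Lam : ℝ) (hκ : 0 < κ)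
    (hκb : κ ≤ 1 / (4 * b))
    (hP : ∀ p ∈ P, ∃ p' ∈ P, ∃ n : ℤ, (b : ℝ) * p = p' + n)
    (hgap : ∀ p ∈ P, ∀ p' ∈ P, p ≠ p' → ∀ n : ℤ, 2 * κ ≤ |p - p' - n|)
    (f : ℝ → ℝ) (hf0 : ∀ x, 0 ≤ f x) (hf1 : ∀ x, f x ≤ 1) (hτ0 : 0 ≤ τ)
    (hτ : ∀ x, (∀ p ∈ P, ¬ Near (κ / b) p x) → f x ≤ τ) (hτb : τ ≤ 1 / (4 * b))
    (hLam : 1 + 2 * P.card * τ ≤ Lam) (m : ℕ) :
    (∀ p ∈ P, ∀ X : Finset ℝ, Sepd ((b : ℝ) ^ m)⁻¹ X → (∀ x ∈ X, Near κ p x) →
      Sm b f m X ≤ Lam ^ m) ∧
    (∀ X : Finset ℝ, Sepd ((b : ℝ) ^ m)⁻¹ X → Sm b f m X ≤ 2 * P.card * Lam ^ m) := by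
  classical
  have hb1 : 1 ≤ b := by omega
  have hb0 : (0 : ℝ) < b := by exact_mod_cast hb1
  have hbR : (2 : ℝ) ≤ b := by exact_mod_cast hb
  have hQ : (1 : ℝ) ≤ P.card := by exact_mod_cast hPne.card_pos
  have hL1 : 1 ≤ Lam := by
    have : 0 ≤ 2 * (P.card : ℝ) * τ := by positivity
    linarith
  have hL0 : 0 < Lam := by linarith
  have hSm0 : ∀ m X, 0 ≤ Sm b f m X := fun m X =>
    Finset.sum_nonneg fun x _ => Finset.prod_nonneg fun i _ => hf0 _
  induction m with
  | zero =>
    have key : ∀ X : Finset ℝ, Sepd ((b : ℝ) ^ 0)⁻¹ X → Sm b f 0 X ≤ 1 := by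
      intro X hX
      unfold Sm
      simp only [Finset.range_zero, Finset.prod_empty, Finset.sum_const, nsmul_eq_mul, mul_one]
      have h1 : X.card ≤ 1 := by
        rw [Finset.card_le_one]
        intro x hx y hy
        by_contra hne
        have h2 := hX x hx y hy hne (round (x - y))
        have h3 := abs_sub_round (x - y)
        rw [pow_zero, inv_one] at h2
        linarith
      exact_mod_cast h1
    refine ⟨fun p _ X hX _ => by rw [pow_zero]; exact key X hX, fun X hX => ?_⟩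
    rw [pow_zero, mul_one]
    have := key X hX
    linarith
  | succ m ih =>
    obtain ⟨ih1, ih2⟩ := ih
    have hpow : (b : ℝ) * ((b : ℝ) ^ (m + 1))⁻¹ = ((b : ℝ) ^ m)⁻¹ := by
      rw [pow_succ]
      field_simp
    -- a set of small diameter on which `f` is small
    have hout : ∀ X : Finset ℝ, Sepd ((b : ℝ) ^ (m + 1))⁻¹ X →
        (∀ x ∈ X, ∀ y ∈ X, ∃ n : ℤ, |x - y - n| < 1 / (2 * b)) →
        (∀ x ∈ X, ∀ p ∈ P, ¬ Near (κ / b) p x) →
        Sm b f (m + 1) X ≤ τ * (2 * P.card * Lam ^ m) := by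
      intro X hX hX2 hX3
      refine (step hb1 f hf0 m X τ fun x hx => hτ x (hX3 x hx)).trans ?_
      apply mul_le_mul_of_nonneg_left _ hτ0
      apply ih2
      rw [← hpow]
      exact hX.image hb1 hX2
    have hdiam : ∀ p : ℝ, ∀ X : Finset ℝ, (∀ x ∈ X, Near κ p x) →
        ∀ x ∈ X, ∀ y ∈ X, ∃ n : ℤ, |x - y - n| < 1 / (2 * b) := by
      intro p X hX x hx y hy
      obtain ⟨n1, h1⟩ := hX x hx
      obtain ⟨n2, h2⟩ := hX y hy
      refine ⟨n1 - n2, ?_⟩
      have e1 : x - y - ((n1 - n2 : ℤ) : ℝ) = (x - p - n1) - (y - p - n2) := by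
        push_cast
        ring
      rw [e1]
      have h3 : κ + κ ≤ 1 / (2 * b) := by
        have e2 : (1 : ℝ) / (2 * b) = 1 / (4 * b) + 1 / (4 * b) := by field_simp; norm_num
        rw [e2]
        linarith
      calc |x - p - n1 - (y - p - n2)| ≤ |x - p - n1| + |y - p - n2| := abs_sub _ _
        _ < κ + κ := add_lt_add h1 h2
        _ ≤ _ := h3
    have hnear : ∀ p ∈ P, ∀ X : Finset ℝ, Sepd ((b : ℝ) ^ (m + 1))⁻¹ X →
        (∀ x ∈ X, Near κ p x) → Sm b f (m + 1) X ≤ Lam ^ (m + 1) := by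
      intro p hp X hX hX2
      have h1 : Sm b f (m + 1) X = Sm b f (m + 1) (X.filter (fun x => Near (κ / b) p x)) +
          Sm b f (m + 1) (X.filter (fun x => ¬ Near (κ / b) p x)) := by
        unfold Sm
        rw [Finset.sum_filter_add_sum_filter_not]
      have h2 : Sm b f (m + 1) (X.filter (fun x => Near (κ / b) p x)) ≤ Lam ^ m := by
        obtain ⟨p', hp', n', hn'⟩ := hP p hp
        refine (step hb1 f hf0 m _ 1 fun x _ => hf1 x).trans ?_
        rw [one_mul]
        apply ih1 p' hp'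
        · rw [← hpow]
          apply (hX.mono (Finset.filter_subset _ _)).image hb1
          apply hdiam p
          intro x hx
          exact hX2 x (Finset.mem_filter.1 hx).1
        · intro u hu
          rw [Finset.mem_image] at hu
          obtain ⟨x, hx, rfl⟩ := hu
          obtain ⟨n, hn⟩ := (Finset.mem_filter.1 hx).2
          refine ⟨n' + b * n, ?_⟩
          have e1 : (b : ℝ) * x - p' - ((n' + b * n : ℤ) : ℝ) = b * (x - p - n) := by
            push_cast
            linear_combination hn'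
          rw [e1, abs_mul, abs_of_pos hb0]
          have := mul_lt_mul_of_pos_left hn hb0
          rwa [mul_div_cancel₀ κ hb0.ne'] at this
      have h3 : Sm b f (m + 1) (X.filter (fun x => ¬ Near (κ / b) p x)) ≤
          τ * (2 * P.card * Lam ^ m) := by
        apply hout
        · exact hX.mono (Finset.filter_subset _ _)
        · apply hdiam p
          intro x hx
          exact hX2 x (Finset.mem_filter.1 hx).1
        · intro x hx p2 hp2 h4
          rw [Finset.mem_filter] at hx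
          by_cases hpp : p2 = p
          · rw [hpp] at h4
            exact hx.2 h4
          · obtain ⟨n1, h5⟩ := hX2 x hx.1
            obtain ⟨n2, h6⟩ := h4
            have h7 := hgap p2 hp2 p hp hpp (n1 - n2)
            have e1 : p2 - p - ((n1 - n2 : ℤ) : ℝ) = (x - p - n1) - (x - p2 - n2) := by
              push_cast
              ring
            rw [e1] at h7
            have h8 : κ / b ≤ κ := div_le_self hκ.le (by linarith)
            have h9 := abs_sub (x - p - n1) (x - p2 - n2)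
            linarith
      rw [h1]
      calc _ ≤ Lam ^ m + τ * (2 * P.card * Lam ^ m) := add_le_add h2 h3
        _ = (1 + 2 * P.card * τ) * Lam ^ m := by ring
        _ ≤ Lam * Lam ^ m := mul_le_mul_of_nonneg_right hLam (by positivity)
        _ = Lam ^ (m + 1) := by rw [pow_succ']
    refine ⟨hnear, fun X hX => ?_⟩
    set N := X.filter (fun x => ∃ p ∈ P, Near κ p x) with hN
    set O := X.filter (fun x => ¬ ∃ p ∈ P, Near κ p x) with hO
    have h1 : Sm b f (m + 1) X = Sm b f (m + 1) N + Sm b f (m + 1) O := by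
      unfold Sm
      rw [Finset.sum_filter_add_sum_filter_not]
    have h2 : Sm b f (m + 1) N ≤ P.card * Lam ^ (m + 1) := by
      have hex : ∀ x : ℝ, ∃ p ∈ P, x ∈ N → Near κ p x := by
        intro x
        by_cases hx : x ∈ N
        · obtain ⟨p, hp, h3⟩ := (Finset.mem_filter.1 hx).2
          exact ⟨p, hp, fun _ => h3⟩
        · obtain ⟨p, hp⟩ := hPne
          exact ⟨p, hp, fun h => absurd h hx⟩
      choose π hπ1 hπ2 using hex
      unfold Sm
      rw [← Finset.sum_fiberwise_of_maps_to (g := π) (t := P) (fun x _ => hπ1 x)]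
      calc ∑ p ∈ P, ∑ x ∈ N with π x = p, ∏ i ∈ range (m + 1), f ((b : ℝ) ^ i * x)
          ≤ ∑ _p ∈ P, Lam ^ (m + 1) := by
            refine Finset.sum_le_sum fun p hp => ?_
            apply hnear p hp
            · exact hX.mono ((Finset.filter_subset _ _).trans (Finset.filter_subset _ _))
            · intro x hx
              rw [Finset.mem_filter] at hx
              rw [← hx.2]
              exact hπ2 x hx.1
        _ = _ := by rw [Finset.sum_const, nsmul_eq_mul]
    have h3 : Sm b f (m + 1) O ≤ (2 * b : ℝ) * (τ * (2 * P.card * Lam ^ m)) := by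
      have hmaps : ∀ x ∈ O, ⌊(2 * b : ℝ) * Int.fract x⌋₊ ∈ range (2 * b) := by
        intro x _
        rw [Finset.mem_range, Nat.floor_lt (by
          have := Int.fract_nonneg x
          positivity)]
        push_cast
        have := Int.fract_lt_one x
        nlinarith
      unfold Sm
      rw [← Finset.sum_fiberwise_of_maps_to hmaps]
      calc ∑ j ∈ range (2 * b), ∑ x ∈ O with ⌊(2 * b : ℝ) * Int.fract x⌋₊ = j,
            ∏ i ∈ range (m + 1), f ((b : ℝ) ^ i * x)
          ≤ ∑ _j ∈ range (2 * b), τ * (2 * P.card * Lam ^ m) := by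
            refine Finset.sum_le_sum fun j _ => ?_
            apply hout
            · exact hX.mono ((Finset.filter_subset _ _).trans (Finset.filter_subset _ _))
            · intro x hx y hy
              rw [Finset.mem_filter] at hx hy
              refine ⟨⌊x⌋ - ⌊y⌋, ?_⟩
              have e1 : x - y - ((⌊x⌋ - ⌊y⌋ : ℤ) : ℝ) = Int.fract x - Int.fract y := by
                unfold Int.fract
                push_cast
                ring
              rw [e1]
              have hfl : ⌊(2 * b : ℝ) * Int.fract x⌋ = ⌊(2 * b : ℝ) * Int.fract y⌋ := by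
                have ex : ∀ z : ℝ, ((⌊(2 * b : ℝ) * Int.fract z⌋₊ : ℕ) : ℤ) =
                    ⌊(2 * b : ℝ) * Int.fract z⌋ := fun z => by
                  apply Int.natCast_floor_eq_floor
                  have := Int.fract_nonneg z
                  positivity
                rw [← ex, ← ex, hx.2, hy.2]
              have h5 := Int.abs_sub_lt_one_of_floor_eq_floor hfl
              rw [← mul_sub, abs_mul, abs_of_pos (by positivity : (0 : ℝ) < 2 * b)] at h5
              rw [lt_div_iff₀ (by positivity)]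
              linarith
            · intro x hx p hp h6
              rw [Finset.mem_filter] at hx
              apply (Finset.mem_filter.1 hx.1).2
              exact ⟨p, hp, h6.mono (div_le_self hκ.le (by linarith))⟩
        _ = _ := by
            rw [Finset.sum_const, Finset.card_range, nsmul_eq_mul]
            push_cast
            ring
    rw [h1]
    have h4 : (2 * b : ℝ) * (τ * (2 * P.card * Lam ^ m)) ≤ P.card * Lam ^ (m + 1) := by
      have h5 : (4 * b : ℝ) * τ ≤ 1 := by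
        rw [le_div_iff₀ (by positivity)] at hτb
        linarith
      have e1 : (2 * b : ℝ) * (τ * (2 * P.card * Lam ^ m)) =
          ((4 * b : ℝ) * τ) * (P.card * Lam ^ m) := by ring
      rw [e1]
      have h6 : 0 ≤ (P.card : ℝ) * Lam ^ m := by positivity
      calc ((4 * b : ℝ) * τ) * (P.card * Lam ^ m) ≤ 1 * (P.card * Lam ^ m) :=
            mul_le_mul_of_nonneg_right h5 h6
        _ ≤ Lam * (P.card * Lam ^ m) := mul_le_mul_of_nonneg_right hL1 h6
        _ = _ := by rw [pow_succ']; ring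
    calc _ ≤ P.card * Lam ^ (m + 1) + (2 * b : ℝ) * (τ * (2 * P.card * Lam ^ m)) :=
          add_le_add h2 h3
      _ ≤ P.card * Lam ^ (m + 1) + P.card * Lam ^ (m + 1) := by linarith
      _ = _ := by ring

end Pool.Agent.Q263.MD
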