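import Mathlib
import Pool.Agent.Q263.MD.Sep

/-!
Character sums of sets of integers with restricted digits.
-/

set_option autoImplicit false

open Finset

namespace Pool.Agent.Q263.MD

/-- the fractions with denominators less than `b` -/
noncomputable def frs (b : ℕ) : Finset ℝ :=
  (Icc 1 (b - 1)).biUnion (fun e => (range e).image (fun j : ℕ => (j : ℝ) / e))

lemma mem_frs {b : ℕ} {p : ℝ} : p ∈ frs b ↔ ∃ e j : ℕ, 1 ≤ e ∧ e < b ∧ j < e ∧ p = (j : ℝ) / e := by
  unfold frs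
  rw [Finset.mem_biUnion]
  constructor
  · rintro ⟨e, he, hp⟩
    rw [Finset.mem_Icc] at he
    rw [Finset.mem_image] at hp
    obtain ⟨j, hj, rfl⟩ := hp
    rw [Finset.mem_range] at hj
    exact ⟨e, j, he.1, by omega, hj, rfl⟩
  · rintro ⟨e, j, h1, h2, h3, rfl⟩
    refine ⟨e, Finset.mem_Icc.2 ⟨h1, by omega⟩, ?_⟩
    rw [Finset.mem_image]
    exact ⟨j, Finset.mem_range.2 h3, rfl⟩

lemma frs_ne {b : ℕ} (hb : 2 ≤ b) : (frs b).Nonempty :=
  ⟨0, mem_frs.2 ⟨1, 0, le_refl 1, by omega, by omega, by simp⟩⟩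

lemma frs_closed {b : ℕ} : ∀ p ∈ frs b, ∃ p' ∈ frs b, ∃ n : ℤ, (b : ℝ) * p = p' + n := by
  intro p hp
  obtain ⟨e, j, h1, h2, h3, rfl⟩ := mem_frs.1 hp
  refine ⟨((b * j % e : ℕ) : ℝ) / e, mem_frs.2 ⟨e, b * j % e, h1, h2, Nat.mod_lt _ (by omega), rfl⟩,
    ((b * j / e : ℕ) : ℤ), ?_⟩
  have he : (0 : ℝ) < e := by exact_mod_cast h1
  have h4 : ((e * (b * j / e) + b * j % e : ℕ) : ℝ) = ((b * j : ℕ) : ℝ) := by
    rw [Nat.div_add_mod]
  generalize b * j / e = u at h4 ⊢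
  generalize b * j % e = v at h4 ⊢
  push_cast at h4 ⊢
  field_simp
  linarith

lemma frs_gap {b : ℕ} (hb : 2 ≤ b) : ∀ p ∈ frs b, ∀ p' ∈ frs b, p ≠ p' → ∀ n : ℤ,
    2 * (1 / (4 * (b : ℝ) ^ 2)) ≤ |p - p' - n| := by
  intro p hp p' hp' hne n
  obtain ⟨e, j, h1, h2, h3, rfl⟩ := mem_frs.1 hp
  obtain ⟨e', j', h1', h2', h3', rfl⟩ := mem_frs.1 hp'
  have he : (0 : ℝ) < e := by exact_mod_cast h1
  have he' : (0 : ℝ) < e' := by exact_mod_cast h1'
  have hb0 : (0 : ℝ) < b := by exact_mod_cast (by omega : 0 < b)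
  have hz : (j : ℤ) * e' - j' * e - n * (e * e') ≠ 0 := by
    intro h0
    have h5 : (j : ℝ) / e - (j' : ℝ) / e' = n := by
      have h6 : ((j : ℤ) * e' - j' * e - n * (e * e') : ℝ) = 0 := by exact_mod_cast h0
      field_simp
      push_cast at h6
      linarith
    have h7 : (j : ℝ) / e < 1 := by
      rw [div_lt_one he]; exact_mod_cast h3
    have h8 : (j' : ℝ) / e' < 1 := by
      rw [div_lt_one he']; exact_mod_cast h3'
    have h9 : (0 : ℝ) ≤ (j : ℝ) / e := by positivity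
    have h10 : (0 : ℝ) ≤ (j' : ℝ) / e' := by positivity
    have h11 : (n : ℝ) < 1 := by linarith
    have h12 : (-1 : ℝ) < n := by linarith
    have h13 : n < 1 := by exact_mod_cast h11
    have h14 : -1 < n := by exact_mod_cast h12
    have h15 : n = 0 := by omega
    rw [h15, Int.cast_zero] at h5
    exact hne (by linarith)
  have h5 : (j : ℝ) / e - (j' : ℝ) / e' - n =
      (((j : ℤ) * e' - j' * e - n * (e * e') : ℤ) : ℝ) / (e * e') := by
    push_cast
    field_simp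
  rw [h5, abs_div, abs_of_pos (by positivity : (0 : ℝ) < e * e')]
  have h6 : (1 : ℝ) ≤ |(((j : ℤ) * e' - j' * e - n * (e * e') : ℤ) : ℝ)| := by
    rw [← Int.cast_abs]
    exact_mod_cast Int.one_le_abs hz
  have h7 : (e : ℝ) * e' ≤ b ^ 2 := by
    have h8 : (e : ℝ) ≤ b := by exact_mod_cast h2.le
    have h9 : (e' : ℝ) ≤ b := by exact_mod_cast h2'.le
    rw [sq]
    exact mul_le_mul h8 h9 he'.le hb0.le
  calc (2 : ℝ) * (1 / (4 * (b : ℝ) ^ 2)) ≤ 1 / (b : ℝ) ^ 2 := by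
        rw [mul_one_div, div_le_div_iff₀ (by positivity) (by positivity)]
        nlinarith [sq_nonneg (b : ℝ)]
    _ ≤ 1 / ((e : ℝ) * e') := one_div_le_one_div_of_le (by positivity) h7
    _ ≤ _ := div_le_div_of_nonneg_right h6 (by positivity)

/-- two points of the circle -/
lemma one_add (y κ : ℝ) (hκ : 0 ≤ κ) (h : ∀ n : ℤ, κ ≤ |y - n|) :
    ‖1 + Complex.exp (2 * Real.pi * Complex.I * y)‖ ≤ 2 - 4 * κ ^ 2 := by
  have h1 := Complex.norm_exp_I_mul_ofReal_sub_one (2 * Real.pi * y + Real.pi)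
  have e1 : Complex.exp (Complex.I * ((2 * Real.pi * y + Real.pi : ℝ) : ℂ)) =
      -Complex.exp (2 * Real.pi * Complex.I * y) := by
    push_cast
    rw [mul_add, Complex.exp_add, mul_comm Complex.I (Real.pi : ℂ), Complex.exp_pi_mul_I]
    rw [show Complex.I * (2 * (Real.pi : ℂ) * y) = 2 * Real.pi * Complex.I * y by ring]
    ring
  have e2 : ‖1 + Complex.exp (2 * Real.pi * Complex.I * y)‖ =
      ‖Complex.exp (Complex.I * ((2 * Real.pi * y + Real.pi : ℝ) : ℂ)) - 1‖ := by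
    rw [e1, ← norm_neg]
    congr 1
    ring
  rw [e2, h1, Real.norm_eq_abs, abs_mul, abs_of_pos (by norm_num : (0 : ℝ) < 2)]
  have e3 : Real.sin ((2 * Real.pi * y + Real.pi) / 2) = Real.cos (Real.pi * y) := by
    rw [show (2 * Real.pi * y + Real.pi) / 2 = Real.pi * y + Real.pi / 2 by ring,
      Real.sin_add_pi_div_two]
  rw [e3]
  set y0 := y - round y with hy0
  have h2 : |y0| ≤ 1 / 2 := abs_sub_round y
  have h3 : κ ≤ |y0| := h (round y)
  have h4 : |Real.cos (Real.pi * y)| = |Real.cos (Real.pi * y0)| := by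
    rw [hy0, mul_sub, mul_comm Real.pi ((round y : ℤ) : ℝ), Real.cos_sub_int_mul_pi, abs_mul,
      abs_zpow, abs_neg, abs_one, one_zpow, one_mul]
  have hpi := Real.pi_pos
  have h5 : 0 ≤ Real.cos (Real.pi * y0) := by
    apply Real.cos_nonneg_of_neg_pi_div_two_le_of_le
    · have := (abs_le.1 h2).1
      nlinarith
    · have := (abs_le.1 h2).2
      nlinarith
  rw [h4, abs_of_nonneg h5]
  have h6 : Real.cos (Real.pi * y0) = 1 - 2 * Real.sin (Real.pi * y0 / 2) ^ 2 := by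
    have := Real.cos_two_mul (Real.pi * y0 / 2)
    have h7 := Real.sin_sq_add_cos_sq (Real.pi * y0 / 2)
    rw [show 2 * (Real.pi * y0 / 2) = Real.pi * y0 by ring] at this
    linarith
  have h7 : |y0| ≤ |Real.sin (Real.pi * y0 / 2)| := by
    have h8 := Real.mul_abs_le_abs_sin (x := Real.pi * y0 / 2) (by
      rw [abs_div, abs_mul, abs_of_pos hpi, abs_of_pos (by norm_num : (0 : ℝ) < 2)]
      nlinarith)
    rw [abs_div, abs_mul, abs_of_pos hpi, abs_of_pos (by norm_num : (0 : ℝ) < 2)] at h8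
    have e4 : 2 / Real.pi * (Real.pi * |y0| / 2) = |y0| := by field_simp
    rwa [e4] at h8
  have h8 : κ ^ 2 ≤ Real.sin (Real.pi * y0 / 2) ^ 2 := by
    rw [← sq_abs (Real.sin (Real.pi * y0 / 2))]
    exact pow_le_pow_left₀ hκ (h3.trans h7) 2
  rw [h6]
  linarith

open Classical in
/-- the majorant of the normalised character sums of the digit sets -/
noncomputable def maj (b : ℕ) (x : ℝ) : ℝ :=
  if ∀ p ∈ frs b, ¬ Near (1 / (4 * (b : ℝ) ^ 2) / b) p x then
    1 - 4 * (1 / (4 * (b : ℝ) ^ 2) / b) ^ 2 / b else 1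

lemma Near.add_int {r p x : ℝ} (h : Near r p x) (n : ℤ) : Near r p (x + n) := by
  obtain ⟨k, hk⟩ := h
  refine ⟨k + n, ?_⟩
  have e1 : x + n - p - ((k + n : ℤ) : ℝ) = x - p - k := by
    push_cast
    ring
  rwa [e1]

lemma near_add_int {r p x : ℝ} (n : ℤ) : Near r p (x + n) ↔ Near r p x := by
  constructor
  · intro h
    have h1 := h.add_int (-n)
    have e1 : x + n + ((-n : ℤ) : ℝ) = x := by push_cast; ring
    rwa [e1] at h1
  · intro h
    exact h.add_int n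

lemma maj_add_int (b : ℕ) (x : ℝ) (n : ℤ) : maj b (x + n) = maj b x := by
  have h : (∀ p ∈ frs b, ¬ Near (1 / (4 * (b : ℝ) ^ 2) / b) p (x + n)) ↔
      (∀ p ∈ frs b, ¬ Near (1 / (4 * (b : ℝ) ^ 2) / b) p x) := by
    constructor
    · intro h p hp h1
      exact h p hp (h1.add_int n)
    · intro h p hp h1
      exact h p hp ((near_add_int n).1 h1)
  unfold maj
  by_cases h1 : ∀ p ∈ frs b, ¬ Near (1 / (4 * (b : ℝ) ^ 2) / b) p x
  · rw [if_pos h1, if_pos (h.2 h1)]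
  · rw [if_neg h1, if_neg (fun h2 => h1 (h.1 h2))]

lemma kap_pos {b : ℕ} (hb : 2 ≤ b) : 0 < 1 / (4 * (b : ℝ) ^ 2) / b := by
  have hb0 : (0 : ℝ) < b := by exact_mod_cast (by omega : 0 < b)
  positivity

lemma kap_le {b : ℕ} (hb : 2 ≤ b) : 1 / (4 * (b : ℝ) ^ 2) / b ≤ 1 / 32 := by
  have hb0 : (2 : ℝ) ≤ b := by exact_mod_cast hb
  rw [div_div, div_le_div_iff₀ (by positivity) (by norm_num)]
  nlinarith [pow_le_pow_left₀ (by norm_num : (0 : ℝ) ≤ 2) hb0 3]

/-- the smaller value -/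
noncomputable def sig (b : ℕ) : ℝ := 1 - 4 * (1 / (4 * (b : ℝ) ^ 2) / b) ^ 2 / b

lemma sig_lt {b : ℕ} (hb : 2 ≤ b) : sig b < 1 := by
  unfold sig
  have h1 := kap_pos hb
  have hb0 : (0 : ℝ) < b := by exact_mod_cast (by omega : 0 < b)
  have : 0 < 4 * (1 / (4 * (b : ℝ) ^ 2) / b) ^ 2 / b := by positivity
  linarith

lemma sig_pos {b : ℕ} (hb : 2 ≤ b) : 0 < sig b := by
  unfold sig
  have h1 := kap_pos hb
  have h2 := kap_le hb
  have hb0 : (2 : ℝ) ≤ b := by exact_mod_cast hb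
  have h3 : (1 / (4 * (b : ℝ) ^ 2) / b) ^ 2 ≤ (1 / 32) ^ 2 := pow_le_pow_left₀ h1.le h2 2
  have h4 : 4 * (1 / (4 * (b : ℝ) ^ 2) / b) ^ 2 / b ≤ 4 * (1 / (4 * (b : ℝ) ^ 2) / b) ^ 2 :=
    div_le_self (by positivity) (by linarith)
  linarith

lemma maj_le_one {b : ℕ} (hb : 2 ≤ b) (x : ℝ) : maj b x ≤ 1 := by
  unfold maj
  split_ifs
  · exact (sig_lt hb).le
  · exact le_refl 1

lemma maj_pos {b : ℕ} (hb : 2 ≤ b) (x : ℝ) : 0 < maj b x := by
  unfold maj
  split_ifs
  · exact sig_pos hb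
  · exact one_pos

lemma maj_small {b : ℕ} (x : ℝ) (h : ∀ p ∈ frs b, ¬ Near (1 / (4 * (b : ℝ) ^ 2) / b) p x) :
    maj b x = sig b := by
  unfold maj sig
  rw [if_pos h]

variable {q : ℕ} [NeZero q]

lemma char_nat (e : ℕ) (x : ZMod q) : ZMod.stdAddChar ((e : ZMod q) * x) =
    Complex.exp (2 * Real.pi * Complex.I * ((e : ℝ) * ((x.val : ℝ) / q) : ℝ)) := by
  have h1 : (e : ZMod q) * x = (((e * x.val : ℕ) : ℤ) : ZMod q) := by
    push_cast
    rw [ZMod.natCast_zmod_val]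
  rw [h1, ZMod.stdAddChar_coe]
  congr 1
  push_cast
  ring

/-- one digit -/
lemma digit_sum {b : ℕ} (hb : 2 ≤ b) (D : Finset ℕ) (hD : ∀ d ∈ D, d < b) (hD2 : 2 ≤ D.card)
    (x : ZMod q) : ‖∑ d ∈ D, ZMod.stdAddChar ((d : ZMod q) * x)‖ ≤
      D.card * maj b ((x.val : ℝ) / q) := by
  classical
  have hb0 : (0 : ℝ) < b := by exact_mod_cast (by omega : 0 < b)
  have hn : ∀ y : ZMod q, ‖(ZMod.stdAddChar y : ℂ)‖ = 1 := fun y => AddChar.norm_apply _ y
  set θ : ℝ := (x.val : ℝ) / q with hθ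
  by_cases hnear : ∀ p ∈ frs b, ¬ Near (1 / (4 * (b : ℝ) ^ 2) / b) p θ
  · rw [maj_small θ hnear]
    obtain ⟨d1, hd1, d2, hd2, hlt⟩ : ∃ d1 ∈ D, ∃ d2 ∈ D, d1 < d2 := by
      obtain ⟨a, ha, c, hc, hac⟩ := Finset.one_lt_card.1 (by omega : 1 < D.card)
      rcases lt_or_gt_of_ne hac with h | h
      · exact ⟨a, ha, c, hc, h⟩
      · exact ⟨c, hc, a, ha, h⟩
    set κ := 1 / (4 * (b : ℝ) ^ 2) / b with hκ
    have hκ0 : 0 < κ := kap_pos hb
    obtain ⟨e, he1, rfl⟩ : ∃ e, 1 ≤ e ∧ d2 = d1 + e := ⟨d2 - d1, by omega, by omega⟩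
    have heb : e < b := by
      have := hD _ hd2
      omega
    have he0 : (1 : ℝ) ≤ e := by exact_mod_cast he1
    have hpair : ‖(ZMod.stdAddChar ((d1 : ZMod q) * x) : ℂ) +
        ZMod.stdAddChar (((d1 + e : ℕ) : ZMod q) * x)‖ ≤ 2 - 4 * κ ^ 2 := by
      have e1 : (ZMod.stdAddChar ((d1 : ZMod q) * x) : ℂ) +
          ZMod.stdAddChar (((d1 + e : ℕ) : ZMod q) * x) =
          ZMod.stdAddChar ((d1 : ZMod q) * x) * (1 + ZMod.stdAddChar ((e : ZMod q) * x)) := by
        push_cast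
        rw [add_mul, AddChar.map_add_eq_mul]
        ring
      rw [e1, norm_mul, hn, one_mul, char_nat]
      apply one_add _ κ hκ0.le
      intro n
      -- the distance to the integers
      by_contra hlt'
      push Not at hlt'
      have hez : (e : ℤ) ≠ 0 := by exact_mod_cast (by omega : e ≠ 0)
      have hmod := Int.emod_nonneg n hez
      have hmod2 : n % e < e := Int.emod_lt_of_pos n (by exact_mod_cast he1)
      apply hnear (((n % e).toNat : ℝ) / e) (mem_frs.2 ⟨e, (n % e).toNat, he1, heb, by omega, rfl⟩)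
      refine ⟨n / e, ?_⟩
      have h1 : (((n % e).toNat : ℕ) : ℝ) = ((n % e : ℤ) : ℝ) := by
        have : (((n % e).toNat : ℕ) : ℤ) = n % e := Int.toNat_of_nonneg hmod
        exact_mod_cast this
      have h2 : (e : ℝ) * ((n / e : ℤ) : ℝ) + ((n % e : ℤ) : ℝ) = n := by
        have := Int.mul_ediv_add_emod n e
        exact_mod_cast this
      have h3 : θ - (((n % e).toNat : ℕ) : ℝ) / e - ((n / e : ℤ) : ℝ) = ((e : ℝ) * θ - n) / e := by
        rw [h1]
        field_simp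
        linarith
      rw [h3, abs_div, abs_of_pos (by linarith : (0 : ℝ) < e)]
      exact lt_of_le_of_lt (div_le_self (abs_nonneg _) he0) hlt'
    have hne : d1 ≠ d1 + e := by omega
    have hsub : ({d1, d1 + e} : Finset ℕ) ⊆ D := by
      intro d hd
      rw [Finset.mem_insert, Finset.mem_singleton] at hd
      rcases hd with rfl | rfl
      · exact hd1
      · exact hd2
    have hsum : ∑ d ∈ D, (ZMod.stdAddChar ((d : ZMod q) * x) : ℂ) =
        ((ZMod.stdAddChar ((d1 : ZMod q) * x) : ℂ) +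
          ZMod.stdAddChar (((d1 + e : ℕ) : ZMod q) * x)) +
        ∑ d ∈ D \ {d1, d1 + e}, (ZMod.stdAddChar ((d : ZMod q) * x) : ℂ) := by
      rw [← Finset.sum_pair (f := fun d : ℕ => (ZMod.stdAddChar ((d : ZMod q) * x) : ℂ)) hne,
        add_comm, Finset.sum_sdiff hsub]
    have hcard : (D \ {d1, d1 + e}).card = D.card - 2 := by
      rw [Finset.card_sdiff_of_subset hsub, Finset.card_pair hne]
    have hrest : ‖∑ d ∈ D \ {d1, d1 + e}, (ZMod.stdAddChar ((d : ZMod q) * x) : ℂ)‖ ≤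
        (D.card : ℝ) - 2 := by
      refine (norm_sum_le _ _).trans ?_
      simp only [hn, Finset.sum_const, nsmul_eq_mul, mul_one]
      rw [hcard, Nat.cast_sub hD2]
      push_cast
      exact le_refl _
    rw [hsum]
    have hDb : (D.card : ℝ) ≤ b := by
      have h1 : D ⊆ range b := fun d hd => Finset.mem_range.2 (hD d hd)
      have h2 := Finset.card_le_card h1
      rw [Finset.card_range] at h2
      exact_mod_cast h2
    have hfin : (D.card : ℝ) * (4 * κ ^ 2 / b) ≤ 4 * κ ^ 2 := by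
      have e1 : (D.card : ℝ) * (4 * κ ^ 2 / b) = (D.card / b) * (4 * κ ^ 2) := by ring
      rw [e1]
      have h1 : (D.card : ℝ) / b ≤ 1 := by
        rw [div_le_one hb0]
        exact hDb
      have h2 : 0 ≤ 4 * κ ^ 2 := by positivity
      nlinarith
    have e2 : (D.card : ℝ) * sig b = D.card - D.card * (4 * κ ^ 2 / b) := by
      unfold sig
      rw [← hκ]
      ring
    rw [e2]
    refine (norm_add_le _ _).trans ?_
    linarith
  · have h1 : maj b θ = 1 := by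
      unfold maj
      rw [if_neg hnear]
    rw [h1, mul_one]
    refine (norm_sum_le _ _).trans ?_
    simp only [hn, Finset.sum_const, nsmul_eq_mul, mul_one]
    exact le_refl _

end Pool.Agent.Q263.MD
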