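import Mathlib
import Pool.Agent.Q263.MD.Chr

/-!
Integers with restricted digits in residue classes.
-/

set_option autoImplicit false

open Finset

namespace Pool.Agent.Q263.MD

variable {q : ℕ} [NeZero q]

lemma char_sum {ι : Type} (s : Finset ι) (f : ι → ZMod q) :
    (ZMod.stdAddChar (∑ i ∈ s, f i) : ℂ) = ∏ i ∈ s, ZMod.stdAddChar (f i) := by
  classical
  induction s using Finset.induction_on with
  | empty => simp
  | insert a s ha ih => rw [Finset.sum_insert ha, Finset.prod_insert ha, AddChar.map_add_eq_mul, ih]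

/-- multiplication by the powers of `b` -/
lemma val_shift (b i : ℕ) (x : ZMod q) : ∃ n : ℤ,
    (((x * (b : ZMod q) ^ i).val : ℕ) : ℝ) / q = (b : ℝ) ^ i * ((x.val : ℝ) / q) + n := by
  have h1 : x * (b : ZMod q) ^ i = ((x.val * b ^ i : ℕ) : ZMod q) := by
    push_cast
    rw [ZMod.natCast_zmod_val]
  have hq : (0 : ℝ) < q := by exact_mod_cast Nat.pos_of_ne_zero (NeZero.ne q)
  refine ⟨-(((x.val * b ^ i) / q : ℕ) : ℤ), ?_⟩
  rw [h1, ZMod.val_natCast]
  have h2 : ((q * (x.val * b ^ i / q) + x.val * b ^ i % q : ℕ) : ℝ) = ((x.val * b ^ i : ℕ) : ℝ) := by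
    rw [Nat.div_add_mod]
  generalize x.val * b ^ i / q = u at h2 ⊢
  generalize x.val * b ^ i % q = v at h2 ⊢
  push_cast at h2 ⊢
  field_simp
  linarith

lemma maj_shift (b i j : ℕ) (x : ZMod q) :
    maj b ((b : ℝ) ^ j * ((((x * (b : ZMod q) ^ i).val : ℕ) : ℝ) / q)) =
      maj b ((b : ℝ) ^ (i + j) * ((x.val : ℝ) / q)) := by
  obtain ⟨n, hn⟩ := val_shift b i x
  have e1 : (b : ℝ) ^ j * ((((x * (b : ZMod q) ^ i).val : ℕ) : ℝ) / q) =
      (b : ℝ) ^ (i + j) * ((x.val : ℝ) / q) + (((b : ℤ) ^ j * n : ℤ) : ℝ) := by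
    rw [hn, pow_add]
    push_cast
    ring
  rw [e1, maj_add_int]

/-- the number of the integers with restricted digits in a residue class -/
theorem count {b : ℕ} (hb : 2 ≤ b) {k : ℕ} (D : Fin k → Finset ℕ)
    (hD : ∀ i, ∀ d ∈ D i, d < b) (hD2 : ∀ i, 2 ≤ (D i).card) (r : ZMod q) :
    (((Fintype.piFinset D).filter
      (fun d : Fin k → ℕ => ((∑ i : Fin k, d i * b ^ (i : ℕ) : ℕ) : ZMod q) = r)).card : ℝ) * q ≤
      (∏ i, ((D i).card : ℝ)) *
        ∑ x : ZMod q, ∏ i ∈ range k, maj b ((b : ℝ) ^ i * ((x.val : ℝ) / q)) := by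
  classical
  set N : (Fin k → ℕ) → ZMod q := fun d => ((∑ i : Fin k, d i * b ^ (i : ℕ) : ℕ) : ZMod q) with hN
  have h1 : ((((Fintype.piFinset D).filter (fun d => N d = r)).card * q : ℝ) : ℂ) =
      ∑ x : ZMod q, ∑ d ∈ Fintype.piFinset D, (ZMod.stdAddChar (x * (N d - r)) : ℂ) := by
    rw [Finset.sum_comm, Finset.card_filter]
    push_cast
    rw [Finset.sum_mul]
    refine Finset.sum_congr rfl fun d _ => ?_
    rw [AddChar.sum_mulShift _ (ZMod.isPrimitive_stdAddChar q), ZMod.card]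
    by_cases h : N d = r
    · rw [if_pos h, if_pos (sub_eq_zero.2 h)]
      push_cast
      ring
    · rw [if_neg h, if_neg (sub_ne_zero.2 h)]
      simp
  have h2 : ∀ x : ZMod q, ‖∑ d ∈ Fintype.piFinset D, (ZMod.stdAddChar (x * (N d - r)) : ℂ)‖ ≤
      (∏ i, ((D i).card : ℝ)) * ∏ i ∈ range k, maj b ((b : ℝ) ^ i * ((x.val : ℝ) / q)) := by
    intro x
    have e1 : ∑ d ∈ Fintype.piFinset D, (ZMod.stdAddChar (x * (N d - r)) : ℂ) =
        (∏ i, ∑ c ∈ D i, (ZMod.stdAddChar ((c : ZMod q) * (x * (b : ZMod q) ^ (i : ℕ))) : ℂ)) *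
          ZMod.stdAddChar (-(x * r)) := by
      rw [Finset.prod_univ_sum, Finset.sum_mul]
      refine Finset.sum_congr rfl fun d _ => ?_
      rw [← char_sum, ← AddChar.map_add_eq_mul]
      congr 1
      simp only [hN]
      push_cast
      rw [mul_sub, Finset.mul_sum, sub_eq_add_neg]
      congr 1
      refine Finset.sum_congr rfl fun i _ => ?_
      ring
    rw [e1, norm_mul, AddChar.norm_apply, mul_one, norm_prod,
      Finset.prod_range (fun i => maj b ((b : ℝ) ^ i * ((x.val : ℝ) / q))),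
      ← Finset.prod_mul_distrib]
    refine Finset.prod_le_prod (fun i _ => norm_nonneg _) fun i _ => ?_
    refine (digit_sum hb (D i) (hD i) (hD2 i) _).trans (le_of_eq ?_)
    congr 1
    have := maj_shift b (i : ℕ) 0 x
    rw [pow_zero, one_mul, add_zero] at this
    exact this
  have h3 : (((Fintype.piFinset D).filter (fun d => N d = r)).card : ℝ) * q =
      ‖∑ x : ZMod q, ∑ d ∈ Fintype.piFinset D, (ZMod.stdAddChar (x * (N d - r)) : ℂ)‖ := by
    rw [← h1, Complex.norm_real, Real.norm_of_nonneg (by positivity)]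
  rw [h3, Finset.mul_sum]
  exact (norm_sum_le _ _).trans (Finset.sum_le_sum fun x _ => h2 x)

lemma amgm (B : ℕ) (hB : 1 ≤ B) (u : ℕ → ℝ) (hu : ∀ j, 0 ≤ u j) :
    ∏ j ∈ range B, u j ≤ ∑ j ∈ range B, (1 / (B : ℝ)) * u j ^ B := by
  have hB0 : (0 : ℝ) < B := by exact_mod_cast hB
  have h1 := Real.geom_mean_le_arith_mean_weighted (range B) (fun _ => 1 / (B : ℝ))
    (fun j => u j ^ B) (fun _ _ => by positivity) (by
      rw [Finset.sum_const, Finset.card_range, nsmul_eq_mul]
      field_simp) (fun j _ => pow_nonneg (hu j) B)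
  refine le_trans (le_of_eq ?_) h1
  refine Finset.prod_congr rfl fun j _ => ?_
  rw [← Real.rpow_natCast, ← Real.rpow_mul (hu j)]
  have : (B : ℝ) * (1 / B) = 1 := by field_simp
  rw [this, Real.rpow_one]

lemma prod_blocks (g : ℕ → ℝ) (B m : ℕ) :
    ∏ i ∈ range (B * m), g i = ∏ j ∈ range B, ∏ i ∈ range m, g (j * m + i) := by
  induction B with
  | zero => simp
  | succ B ih => rw [Nat.succ_mul, Finset.prod_range_add, Finset.prod_range_succ, ih]

theorem block {b : ℕ} (hb : 2 ≤ b) (hq : Nat.Coprime b q) (B m k : ℕ) (hB : 1 ≤ B)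
    (hk : B * m ≤ k) :
    ∑ x : ZMod q, ∏ i ∈ range k, maj b ((b : ℝ) ^ i * ((x.val : ℝ) / q)) ≤
      ∑ x : ZMod q, ∏ i ∈ range m, (maj b ((b : ℝ) ^ i * ((x.val : ℝ) / q))) ^ B := by
  have hB0 : (0 : ℝ) < B := by exact_mod_cast hB
  set F : ℕ → ZMod q → ℝ := fun i x => maj b ((b : ℝ) ^ i * ((x.val : ℝ) / q)) with hF
  have hF0 : ∀ i x, 0 ≤ F i x := fun i x => (maj_pos hb _).le
  have hF1 : ∀ i x, F i x ≤ 1 := fun i x => maj_le_one hb _
  have h1 : ∀ x, ∏ i ∈ range k, F i x ≤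
      ∑ j ∈ range B, (1 / (B : ℝ)) * (∏ i ∈ range m, F (j * m + i) x) ^ B := by
    intro x
    obtain ⟨r, rfl⟩ : ∃ r, k = B * m + r := ⟨k - B * m, by omega⟩
    rw [Finset.prod_range_add]
    have h2 : ∏ i ∈ range r, F (B * m + i) x ≤ 1 :=
      Finset.prod_le_one (fun i _ => hF0 _ _) fun i _ => hF1 _ _
    have h3 : 0 ≤ ∏ i ∈ range (B * m), F i x := Finset.prod_nonneg fun i _ => hF0 _ _
    calc (∏ i ∈ range (B * m), F i x) * ∏ i ∈ range r, F (B * m + i) x
        ≤ ∏ i ∈ range (B * m), F i x := mul_le_of_le_one_right h3 h2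
      _ = ∏ j ∈ range B, ∏ i ∈ range m, F (j * m + i) x := prod_blocks (fun i => F i x) B m
      _ ≤ _ := amgm B hB (fun j => ∏ i ∈ range m, F (j * m + i) x)
          (fun j => Finset.prod_nonneg fun i _ => hF0 _ _)
  have h2 : ∀ j, ∑ x : ZMod q, (∏ i ∈ range m, F (j * m + i) x) ^ B =
      ∑ x : ZMod q, ∏ i ∈ range m, (F i x) ^ B := by
    intro j
    have hu : IsUnit ((b : ZMod q) ^ (j * m)) := by
      apply IsUnit.pow
      exact (ZMod.isUnit_iff_coprime b q).2 hq
    obtain ⟨u, hu⟩ := hu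
    rw [← Equiv.sum_comp (Units.mulRight u) (fun x : ZMod q => ∏ i ∈ range m, (F i x) ^ B)]
    refine Finset.sum_congr rfl fun x _ => ?_
    rw [← Finset.prod_pow]
    refine Finset.prod_congr rfl fun i _ => ?_
    congr 1
    simp only [hF, Units.mulRight_apply, hu]
    exact (maj_shift b (j * m) i x).symm
  calc ∑ x : ZMod q, ∏ i ∈ range k, F i x
      ≤ ∑ x : ZMod q, ∑ j ∈ range B, (1 / (B : ℝ)) * (∏ i ∈ range m, F (j * m + i) x) ^ B :=
        Finset.sum_le_sum fun x _ => h1 x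
    _ = ∑ j ∈ range B, (1 / (B : ℝ)) * ∑ x : ZMod q, (∏ i ∈ range m, F (j * m + i) x) ^ B := by
        rw [Finset.sum_comm]
        refine Finset.sum_congr rfl fun j _ => ?_
        rw [Finset.mul_sum]
    _ = ∑ _j ∈ range B, (1 / (B : ℝ)) * ∑ x : ZMod q, ∏ i ∈ range m, (F i x) ^ B :=
        Finset.sum_congr rfl fun j _ => by rw [h2 j]
    _ = _ := by
        rw [Finset.sum_const, Finset.card_range, nsmul_eq_mul, ← mul_assoc]
        have : (B : ℝ) * (1 / B) = 1 := by field_simp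
        rw [this, one_mul]

/-- **Integers with restricted digits in residue classes.** -/
theorem classes {b : ℕ} (hb : 2 ≤ b) (η : ℝ) (hη : 0 < η) :
    ∃ (B : ℕ) (K : ℝ), 1 ≤ B ∧ 1 ≤ K ∧ ∀ (q : ℕ) [NeZero q], Nat.Coprime b q →
      ∀ m k : ℕ, q ≤ b ^ m → B * m ≤ k → ∀ D : Fin k → Finset ℕ, (∀ i, ∀ d ∈ D i, d < b) →
      (∀ i, 2 ≤ (D i).card) → ∀ r : ZMod q,
      (((Fintype.piFinset D).filter
        (fun d : Fin k → ℕ => ((∑ i : Fin k, d i * b ^ (i : ℕ) : ℕ) : ZMod q) = r)).card : ℝ) * q ≤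
        (∏ i, ((D i).card : ℝ)) * (K * (1 + η) ^ m) := by
  classical
  have hb0 : (0 : ℝ) < b := by exact_mod_cast (by omega : 0 < b)
  have hQ : (1 : ℝ) ≤ (frs b).card := by exact_mod_cast (frs_ne hb).card_pos
  obtain ⟨B, hBs⟩ := exists_pow_lt_of_lt_one
    (show 0 < min (1 / (4 * (b : ℝ))) (η / (2 * (frs b).card)) from lt_min (by positivity)
      (by positivity)) (sig_lt hb)
  have hB1 : 1 ≤ B := by
    by_contra h
    have h0 : B = 0 := by omega
    rw [h0, pow_zero] at hBs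
    have h1 := hBs.le.trans (min_le_left _ _)
    rw [le_div_iff₀ (by positivity)] at h1
    have : (2 : ℝ) ≤ b := by exact_mod_cast hb
    linarith
  refine ⟨B, 2 * (frs b).card, hB1, by linarith, fun q _ hq m k hm hk D hD hD2 r => ?_⟩
  refine (count hb D hD hD2 r).trans ?_
  apply mul_le_mul_of_nonneg_left _ (Finset.prod_nonneg fun i _ => Nat.cast_nonneg _)
  refine (block hb hq B m k hB1 hk).trans ?_
  have hq0 : (0 : ℝ) < q := by exact_mod_cast Nat.pos_of_ne_zero (NeZero.ne q)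
  have hinj : Function.Injective (fun x : ZMod q => (x.val : ℝ) / q) := by
    intro x y h
    have h1 : (x.val : ℝ) = y.val := by
      simp only at h
      field_simp at h
      exact h
    exact ZMod.val_injective q (by exact_mod_cast h1)
  have hmain := (main hb (frs b) (frs_ne hb) (1 / (4 * (b : ℝ) ^ 2)) (sig b ^ B) (1 + η)
    (by positivity) (by
      apply one_div_le_one_div_of_le (by positivity)
      have : (2 : ℝ) ≤ b := by exact_mod_cast hb
      nlinarith) frs_closed (frs_gap hb) (fun y => maj b y ^ B)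
    (fun y => pow_nonneg (maj_pos hb y).le B) (fun y => pow_le_one₀ (maj_pos hb y).le
      (maj_le_one hb y)) (pow_nonneg (sig_pos hb).le B) (fun y hy => by rw [maj_small y hy])
    (hBs.le.trans (min_le_left _ _)) (by
      have h1 := hBs.le.trans (min_le_right _ _)
      rw [le_div_iff₀ (by positivity)] at h1
      linarith) m).2 (Finset.univ.image (fun x : ZMod q => (x.val : ℝ) / q)) (by
    intro u hu v hv huv n
    rw [Finset.mem_image] at hu hv
    obtain ⟨x, -, rfl⟩ := hu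
    obtain ⟨y, -, rfl⟩ := hv
    have hz : (x.val : ℤ) - y.val - n * q ≠ 0 := by
      intro h0
      apply huv
      have h1 : (x.val : ℤ) < q := by exact_mod_cast ZMod.val_lt x
      have h2 : (y.val : ℤ) < q := by exact_mod_cast ZMod.val_lt y
      have h3 : (0 : ℤ) ≤ x.val := Int.natCast_nonneg _
      have h4 : (0 : ℤ) ≤ y.val := Int.natCast_nonneg _
      have hqz : (0 : ℤ) < q := by exact_mod_cast Nat.pos_of_ne_zero (NeZero.ne q)
      have h5 : n < 1 := by
        by_contra h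
        push Not at h
        nlinarith
      have h6 : -1 < n := by
        by_contra h
        push Not at h
        nlinarith
      have h7 : n = 0 := by omega
      rw [h7, zero_mul, sub_zero] at h0
      have h8 : x.val = y.val := by
        have : (x.val : ℤ) = y.val := by linarith
        exact_mod_cast this
      rw [h8]
    have h1 : (x.val : ℝ) / q - (y.val : ℝ) / q - n =
        (((x.val : ℤ) - y.val - n * q : ℤ) : ℝ) / q := by
      push_cast
      field_simp
    rw [h1, abs_div, abs_of_pos hq0]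
    have h2 : (1 : ℝ) ≤ |(((x.val : ℤ) - y.val - n * q : ℤ) : ℝ)| := by
      rw [← Int.cast_abs]
      exact_mod_cast Int.one_le_abs hz
    have h3 : ((b : ℝ) ^ m)⁻¹ ≤ 1 / q := by
      rw [inv_eq_one_div]
      apply one_div_le_one_div_of_le hq0
      exact_mod_cast hm
    exact h3.trans (div_le_div_of_nonneg_right h2 hq0.le))
  refine le_trans (le_of_eq ?_) hmain
  unfold Sm
  rw [Finset.sum_image fun x _ y _ h => hinj h]

end Pool.Agent.Q263.MD
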