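import Mathlib
import Pool.Agent.Q263.MD.Cnt
import Pool.Agent.Y927.CP.F

/-!
Integers with restricted digits: residue classes, and the Collatz map.
-/

set_option autoImplicit false

open Finset

namespace Pool.Agent.Q263.MD

/-- The integers less than `b ^ k` whose `i`-th digit in base `b` belongs to `D i` for `i < k`. -/
def Dig (b k : ℕ) (D : Fin k → Finset ℕ) : Finset ℕ :=
  (range (b ^ k)).filter (fun n => ∀ i : Fin k, n / b ^ (i : ℕ) % b ∈ D i)

/-- the integer with given digits -/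
def nb {k : ℕ} (b : ℕ) (d : Fin k → ℕ) : ℕ := ∑ i : Fin k, d i * b ^ (i : ℕ)

lemma nb_spec {b k : ℕ} (d : Fin k → ℕ) (hd : ∀ i, d i < b) :
    nb b d < b ^ k ∧ ∀ j : Fin k, nb b d / b ^ (j : ℕ) % b = d j := by
  set f : Fin k → Fin b := fun i => ⟨d i, hd i⟩ with hf
  have h1 : ((finFunctionFinEquiv f : Fin (b ^ k)) : ℕ) = nb b d := finFunctionFinEquiv_apply f
  constructor
  · rw [← h1]
    exact (finFunctionFinEquiv f).2
  · intro j
    have h2 : ((finFunctionFinEquiv.symm (finFunctionFinEquiv f)) j : ℕ) =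
        ((finFunctionFinEquiv f : Fin (b ^ k)) : ℕ) / b ^ (j : ℕ) % b := rfl
    rw [Equiv.symm_apply_apply, h1] at h2
    exact h2.symm

lemma nb_digits {b k n : ℕ} (hn : n < b ^ k) : nb b (fun i : Fin k => n / b ^ (i : ℕ) % b) = n := by
  have h1 : ((finFunctionFinEquiv (finFunctionFinEquiv.symm (⟨n, hn⟩ : Fin (b ^ k))) :
      Fin (b ^ k)) : ℕ) = n := by
    rw [Equiv.apply_symm_apply]
  rw [finFunctionFinEquiv_apply] at h1
  exact h1

lemma card_filter {b k : ℕ} (D : Fin k → Finset ℕ) (hD : ∀ i, ∀ d ∈ D i, d < b) (P : ℕ → Prop)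
    [DecidablePred P] : ((Dig b k D).filter P).card =
      ((Fintype.piFinset D).filter (fun d => P (nb b d))).card := by
  classical
  symm
  apply Finset.card_bij (fun d _ => nb b d)
  · intro d hd
    rw [Finset.mem_filter, Fintype.mem_piFinset] at hd
    obtain ⟨h1, h2⟩ := nb_spec (b := b) d (fun i => hD i _ (hd.1 i))
    rw [Finset.mem_filter]
    refine ⟨?_, hd.2⟩
    unfold Dig
    rw [Finset.mem_filter, Finset.mem_range]
    exact ⟨h1, fun i => by rw [h2 i]; exact hd.1 i⟩
  · intro d hd d' hd' h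
    rw [Finset.mem_filter, Fintype.mem_piFinset] at hd hd'
    obtain ⟨-, h2⟩ := nb_spec (b := b) d (fun i => hD i _ (hd.1 i))
    obtain ⟨-, h2'⟩ := nb_spec (b := b) d' (fun i => hD i _ (hd'.1 i))
    ext i
    rw [← h2 i, ← h2' i, h]
  · intro n hn
    rw [Finset.mem_filter] at hn
    obtain ⟨h1, h2⟩ := hn
    unfold Dig at h1
    rw [Finset.mem_filter, Finset.mem_range] at h1
    refine ⟨fun i : Fin k => n / b ^ (i : ℕ) % b, ?_, nb_digits h1.1⟩
    rw [Finset.mem_filter, Fintype.mem_piFinset]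
    exact ⟨h1.2, by rw [nb_digits h1.1]; exact h2⟩

lemma card_Dig {b k : ℕ} (D : Fin k → Finset ℕ) (hD : ∀ i, ∀ d ∈ D i, d < b) :
    (Dig b k D).card = ∏ i, (D i).card := by
  have h1 := card_filter (b := b) D hD (fun _ => True)
  rw [Finset.filter_true, Finset.filter_true, Fintype.card_piFinset] at h1
  exact h1

lemma Dig_ge {b k : ℕ} (D : Fin k → Finset ℕ) (hD : ∀ i, ∀ d ∈ D i, d < b)
    (hD2 : ∀ i, 2 ≤ (D i).card) : 2 ^ k ≤ (Dig b k D).card := by
  rw [card_Dig D hD]
  calc 2 ^ k = ∏ _i : Fin k, 2 := by simp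
    _ ≤ _ := Finset.prod_le_prod' fun i _ => hD2 i

lemma Dig_le {b k : ℕ} (D : Fin k → Finset ℕ) : (Dig b k D).card ≤ b ^ k := by
  unfold Dig
  exact (Finset.card_filter_le _ _).trans (by rw [Finset.card_range])

/-- residue classes, first form -/
lemma classes' {b : ℕ} (hb : 2 ≤ b) (η : ℝ) (hη : 0 < η) :
    ∃ (B : ℕ) (K : ℝ), 1 ≤ B ∧ 1 ≤ K ∧ ∀ q : ℕ, 1 ≤ q → Nat.Coprime b q →
      ∀ m k : ℕ, q ≤ b ^ m → B * m ≤ k → ∀ D : Fin k → Finset ℕ, (∀ i, ∀ d ∈ D i, d < b) →
      (∀ i, 2 ≤ (D i).card) → ∀ r : ℕ,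
      (((Dig b k D).filter (fun n => n ≡ r [MOD q])).card : ℝ) * q ≤
        (Dig b k D).card * (K * (1 + η) ^ m) := by
  classical
  obtain ⟨B, K, hB, hK, h⟩ := classes hb η hη
  refine ⟨B, K, hB, hK, fun q hq hc m k h1 h2 D hD hD2 r => ?_⟩
  have : NeZero q := ⟨by omega⟩
  have h3 := h q hc m k h1 h2 D hD hD2 (r : ZMod q)
  rw [card_filter D hD, card_Dig D hD]
  push_cast
  refine le_trans (le_of_eq ?_) h3
  congr 2
  apply congrArg
  apply Finset.filter_congr
  intro d _
  rw [← ZMod.natCast_eq_natCast_iff]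
  rfl

/-- **Integers with restricted digits in residue classes.** -/
theorem equi {b : ℕ} (hb : 2 ≤ b) (ε : ℝ) (hε : 0 < ε) :
    ∃ (B : ℕ) (K : ℝ), 1 ≤ B ∧ ∀ q : ℕ, 1 ≤ q → Nat.Coprime b q →
      ∀ k : ℕ, q ^ B ≤ b ^ k → ∀ D : Fin k → Finset ℕ, (∀ i, ∀ d ∈ D i, d < b) →
      (∀ i, 2 ≤ (D i).card) → ∀ r : ℕ,
      (((Dig b k D).filter (fun n => n ≡ r [MOD q])).card : ℝ) ≤
        K * (q : ℝ) ^ ε * ((Dig b k D).card / q) := by
  classical
  have hb0 : (0 : ℝ) < b := by exact_mod_cast (by omega : 0 < b)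
  have hb1 : (1 : ℝ) < b := by exact_mod_cast (by omega : 1 < b)
  have hlb : 0 < Real.log b := Real.log_pos hb1
  set η : ℝ := (b : ℝ) ^ ε - 1 with hη
  have hη0 : 0 < η := by
    have := Real.one_lt_rpow hb1 hε
    linarith
  obtain ⟨B, K, hB, hK, h⟩ := classes' hb η hη0
  refine ⟨2 * B, (b : ℝ) * (K * (1 + η)), by omega, fun q hq hc k hqk D hD hD2 r => ?_⟩
  have hq0 : (0 : ℝ) < q := by exact_mod_cast hq
  have hq1 : (1 : ℝ) ≤ q := by exact_mod_cast hq
  have hqe : (1 : ℝ) ≤ (q : ℝ) ^ ε := Real.one_le_rpow hq1 hε.le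
  have hN0 : (0 : ℝ) ≤ (Dig b k D).card := Nat.cast_nonneg _
  rw [← mul_div_assoc, le_div_iff₀ hq0]
  set m := Nat.clog b q with hm
  have hm1 : q ≤ b ^ m := Nat.le_pow_clog (by omega) q
  by_cases hBm : B * m ≤ k
  · refine (h q hq hc m k hm1 hBm D hD hD2 r).trans ?_
    have h1 : (1 + η) ^ m ≤ (1 + η) * (q : ℝ) ^ ε := by
      rcases Nat.eq_zero_or_pos m with h0 | h0
      · rw [h0, pow_zero]
        nlinarith
      · have h2 : b ^ (m - 1) < q := by
          have := Nat.pow_pred_clog_lt_self (b := b) (x := q) (by omega) (by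
            by_contra h3
            have h4 : q = 1 := by omega
            rw [hm, h4, Nat.clog_one_right] at h0
            omega)
          exact this
        have h3 : (1 + η) = (b : ℝ) ^ ε := by rw [hη]; ring
        obtain ⟨m', hm'⟩ : ∃ m', m = m' + 1 := ⟨m - 1, by omega⟩
        rw [hm', pow_succ, mul_comm]
        apply mul_le_mul_of_nonneg_left _ (by linarith)
        rw [hm', Nat.add_sub_cancel] at h2
        rw [h3, ← Real.rpow_natCast, ← Real.rpow_mul hb0.le, mul_comm ε, Real.rpow_mul hb0.le,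
          Real.rpow_natCast]
        apply Real.rpow_le_rpow (by positivity) _ hε.le
        exact_mod_cast h2.le
    have h2 : K * (1 + η) ^ m ≤ (b : ℝ) * (K * (1 + η)) * (q : ℝ) ^ ε := by
      have h3 : K * (1 + η) ^ m ≤ K * ((1 + η) * (q : ℝ) ^ ε) :=
        mul_le_mul_of_nonneg_left h1 (by linarith)
      have h4 : 0 ≤ K * ((1 + η) * (q : ℝ) ^ ε) := by positivity
      nlinarith
    calc ((Dig b k D).card : ℝ) * (K * (1 + η) ^ m)
        ≤ (Dig b k D).card * ((b : ℝ) * (K * (1 + η)) * (q : ℝ) ^ ε) :=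
          mul_le_mul_of_nonneg_left h2 hN0
      _ = _ := by ring
  · push Not at hBm
    have hqb : q ≤ b := by
      by_contra hlt
      push Not at hlt
      have h2 : b ^ (m - 1) < q := Nat.pow_pred_clog_lt_self (b := b) (x := q) (by omega) (by omega)
      have h5 : 2 ≤ m := by
        by_contra h6
        have h7 : m ≤ 1 := by omega
        have h8 : b ^ m ≤ b ^ 1 := Nat.pow_le_pow_right (by omega) h7
        rw [pow_one] at h8
        omega
      have h6 : b ^ ((m - 1) * (2 * B)) < b ^ k := by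
        calc b ^ ((m - 1) * (2 * B)) = (b ^ (m - 1)) ^ (2 * B) := by rw [pow_mul]
          _ < q ^ (2 * B) := Nat.pow_lt_pow_left h2 (by omega)
          _ ≤ b ^ k := hqk
      have h7 : (m - 1) * (2 * B) < k := (Nat.pow_lt_pow_iff_right (by omega)).1 h6
      obtain ⟨m', hm'⟩ : ∃ m', m = m' + 2 := ⟨m - 2, by omega⟩
      rw [hm'] at h7 hBm
      have h8 : (m' + 2 - 1) * (2 * B) = B * (m' + 2) + B * m' := by
        have : m' + 2 - 1 = m' + 1 := by omega
        rw [this]
        ring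
      rw [h8] at h7
      omega
    have h1 : (((Dig b k D).filter (fun n => n ≡ r [MOD q])).card : ℝ) ≤ (Dig b k D).card := by
      exact_mod_cast Finset.card_filter_le _ _
    have h2 : (q : ℝ) ≤ b := by exact_mod_cast hqb
    calc (((Dig b k D).filter (fun n => n ≡ r [MOD q])).card : ℝ) * q
        ≤ (Dig b k D).card * b := mul_le_mul h1 h2 hq0.le hN0
      _ ≤ (Dig b k D).card * ((b : ℝ) * (K * (1 + η)) * (q : ℝ) ^ ε) := by
          apply mul_le_mul_of_nonneg_left _ hN0
          have h3 : (1 : ℝ) ≤ (K * (1 + η)) * (q : ℝ) ^ ε := by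
            have : (1 : ℝ) ≤ K * (1 + η) := by nlinarith
            nlinarith
          calc (b : ℝ) = b * 1 := (mul_one _).symm
            _ ≤ b * ((K * (1 + η)) * (q : ℝ) ^ ε) := mul_le_mul_of_nonneg_left h3 hb0.le
            _ = _ := by ring
      _ = _ := by ring

open Pool.Agent.Y927.CP in
/-- the atypical integers -/
theorem atyp {b : ℕ} (hb : 2 ≤ b) (hodd : Odd b) (η : ℝ) (hη : 0 < η) :
    ∃ (B : ℕ) (K : ℝ), 2 ≤ B ∧ 1 ≤ K ∧ ∀ k : ℕ, ∀ D : Fin k → Finset ℕ,
      (∀ i, ∀ d ∈ D i, d < b) → (∀ i, 2 ≤ (D i).card) →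
      (((Dig b k D).filter (fun n => pv (k / B) n ∈ Bad (k / B) (η * (k / B : ℕ)))).card : ℝ) ≤
        (Dig b k D).card * (K * (2 * ((k / B : ℕ) + 1)) *
          Real.exp (-(η ^ 2 * (k / B : ℕ) / 4))) := by
  classical
  obtain ⟨B, K, hB, hK, h⟩ := classes' hb (Real.exp (η ^ 2 / 4) - 1) (by
    have := Real.add_one_lt_exp (show η ^ 2 / 4 ≠ 0 by positivity)
    have h2 : 0 < η ^ 2 / 4 := by positivity
    linarith)
  refine ⟨2 * B, K, by omega, hK, fun k D hD hD2 => ?_⟩
  have hN0 : (0 : ℝ) ≤ (Dig b k D).card := Nat.cast_nonneg _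
  set t := k / (2 * B) with ht
  set lam : ℝ := η * (t : ℕ) with hlam
  rcases Nat.eq_zero_or_pos t with h0 | h0
  · have h1 : (((Dig b k D).filter (fun n => pv t n ∈ Bad t lam)).card : ℝ) ≤
        (Dig b k D).card := by exact_mod_cast Finset.card_filter_le _ _
    refine h1.trans ?_
    have e1 : K * (2 * ((t : ℝ) + 1)) * Real.exp (-(η ^ 2 * t / 4)) = 2 * K := by
      rw [h0]
      norm_num
      ring
    rw [e1]
    nlinarith
  · have ht0 : (0 : ℝ) < t := by exact_mod_cast h0
    have hBt : B * t ≤ k := by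
      have h2 : t * (2 * B) ≤ k := Nat.div_mul_le_self k (2 * B)
      have h3 : t * (2 * B) = B * t + B * t := by ring
      omega
    have hfib : ∀ v : Fin t → Bool,
        (((Dig b k D).filter (fun n => pv t n = v)).card : ℝ) ≤
          (Dig b k D).card * (K * Real.exp (η ^ 2 * t / 4)) / 2 ^ t := by
      intro v
      by_cases hne : ((Dig b k D).filter (fun n => pv t n = v)).Nonempty
      · obtain ⟨n0, hn0⟩ := hne
        rw [Finset.mem_filter] at hn0
        have h1 := h (2 ^ t) (Nat.one_le_two_pow) (by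
          apply Nat.Coprime.pow_right
          exact Nat.coprime_two_right.2 hodd) t k (Nat.pow_le_pow_left hb t) hBt D hD hD2 n0
        rw [le_div_iff₀ (by positivity)]
        have e1 : (1 + (Real.exp (η ^ 2 / 4) - 1)) ^ t = Real.exp (η ^ 2 * t / 4) := by
          rw [add_sub_cancel, ← Real.exp_nat_mul]
          congr 1
          ring
        rw [e1] at h1
        push_cast at h1
        refine le_trans ?_ h1
        apply mul_le_mul_of_nonneg_right _ (by positivity)
        have h2 : (Dig b k D).filter (fun n => pv t n = v) ⊆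
            (Dig b k D).filter (fun n => n ≡ n0 [MOD 2 ^ t]) := by
          intro n hn
          rw [Finset.mem_filter] at hn ⊢
          exact ⟨hn.1, modEq_of_pv (hn.2.trans hn0.2.symm)⟩
        exact_mod_cast Finset.card_le_card h2
      · rw [Finset.not_nonempty_iff_eq_empty] at hne
        rw [hne, Finset.card_empty, Nat.cast_zero]
        positivity
    have h1 : ((Dig b k D).filter (fun n => pv t n ∈ Bad t lam)).card =
        ∑ v ∈ Bad t lam, ((Dig b k D).filter (fun n => pv t n = v)).card := by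
      rw [Finset.card_eq_sum_card_fiberwise (f := fun n => pv t n) (t := Bad t lam)]
      · refine Finset.sum_congr rfl fun v hv => ?_
        rw [Finset.filter_filter]
        apply congrArg
        apply Finset.filter_congr
        intro n _
        constructor
        · exact fun h => h.2
        · exact fun h => ⟨by rw [h]; exact hv, h⟩
      · intro n hn
        rw [Finset.mem_coe, Finset.mem_filter] at hn
        exact hn.2
    rw [h1]
    push_cast
    refine (Finset.sum_le_sum fun v _ => hfib v).trans ?_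
    rw [Finset.sum_const, nsmul_eq_mul]
    have h2 := card_Bad (k := t) h0 (lam := lam) (by positivity)
    have e2 : lam ^ 2 / (2 * t) = η ^ 2 * t / 2 := by
      rw [hlam]
      field_simp
    rw [e2] at h2
    calc ((Bad t lam).card : ℝ) * ((Dig b k D).card * (K * Real.exp (η ^ 2 * t / 4)) / 2 ^ t)
        ≤ (2 * (t + 1) * (2 ^ t * Real.exp (-(η ^ 2 * t / 2)))) *
          ((Dig b k D).card * (K * Real.exp (η ^ 2 * t / 4)) / 2 ^ t) :=
          mul_le_mul_of_nonneg_right h2 (by positivity)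
      _ = (Dig b k D).card * (K * (2 * ((t : ℝ) + 1)) *
          (Real.exp (-(η ^ 2 * t / 2)) * Real.exp (η ^ 2 * t / 4))) := by
          field_simp
      _ = _ := by
          rw [← Real.exp_add]
          congr 3
          ring

end Pool.Agent.Q263.MD
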