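import Mathlib
import Pool.Agent.Q263.MD.Dig

/-!
The Collatz map and the integers with restricted digits: the main theorems.
-/

set_option autoImplicit false

open Finset

namespace Pool.Agent.Q263.MD

open Pool.Agent.Y927.CP

/-- a power saving -/
lemma saving {b : ℕ} (hb : 2 ≤ b) {B : ℕ} (hB : 1 ≤ B) {a : ℝ} (ha : 0 < a) (K : ℝ) (hK : 1 ≤ K) :
    ∃ c C : ℝ, 0 < c ∧ c ≤ 1 / 2 ∧ 1 ≤ C ∧ ∀ (k : ℕ) (N : ℝ), 1 ≤ N → N ≤ (b : ℝ) ^ k →
      N * (K * (2 * ((k / B : ℕ) + 1)) * Real.exp (-(a * (k / B : ℕ)))) ≤ C * N ^ (1 - c) := by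
  have hb1 : (1 : ℝ) < b := by exact_mod_cast (by omega : 1 < b)
  have hb0 : (0 : ℝ) < b := by linarith
  have hlb : 0 < Real.log b := Real.log_pos hb1
  have hB0 : (0 : ℝ) < B := by exact_mod_cast hB
  set c := min (1 / 2) (a / (2 * B) / Real.log b) with hc
  have hc0 : 0 < c := lt_min (by norm_num) (by positivity)
  have hc1 : c ≤ 1 / 2 := min_le_left _ _
  have hc2 : c * Real.log b ≤ a / (2 * B) := by
    have := min_le_right (1 / 2) (a / (2 * B) / Real.log b)
    rw [← hc, le_div_iff₀ hlb] at this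
    exact this
  refine ⟨c, K * (2 * (1 + 2 / a)) * Real.exp (a / 2), hc0, hc1, ?_, fun k N hN hNb => ?_⟩
  · have h1 : 1 ≤ Real.exp (a / 2) := Real.one_le_exp (by positivity)
    have h2 : 1 ≤ K * (2 * (1 + 2 / a)) := by
      have : 0 < 2 / a := by positivity
      nlinarith
    nlinarith
  · set t := k / B with ht
    have h1 : (k : ℝ) / B - 1 ≤ t := by
      have h2 : k < B * t + B := by
        rw [ht]
        exact Nat.lt_mul_div_succ k hB
      rw [sub_le_iff_le_add, div_le_iff₀ hB0]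
      have h3 : (k : ℝ) < B * t + B := by exact_mod_cast h2
      linarith
    have h2 : ((t : ℝ) + 1) ≤ (1 + 2 / a) * Real.exp (a * t / 2) := by
      have h3 := Real.add_one_le_exp (a * t / 2)
      have h4 : (0 : ℝ) ≤ t := Nat.cast_nonneg _
      have h5 : (1 : ℝ) ≤ Real.exp (a * t / 2) := Real.one_le_exp (by positivity)
      have h6 : (t : ℝ) ≤ 2 / a * Real.exp (a * t / 2) := by
        have h7 : 2 / a * (a * t / 2 + 1) ≤ 2 / a * Real.exp (a * t / 2) :=
          mul_le_mul_of_nonneg_left h3 (by positivity)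
        have h8 : 2 / a * (a * t / 2 + 1) = t + 2 / a := by field_simp
        have h9 : 0 < 2 / a := by positivity
        linarith
      rw [add_mul, one_mul]
      linarith
    have h3 : Real.exp (a * t / 2) * Real.exp (-(a * t)) ≤
        Real.exp (a / 2) * Real.exp (-(a / (2 * B) * k)) := by
      rw [← Real.exp_add, ← Real.exp_add]
      apply Real.exp_le_exp.2
      have h4 := mul_le_mul_of_nonneg_left h1 (by positivity : 0 ≤ a / 2)
      have h5 : a / 2 * ((k : ℝ) / B - 1) = a / (2 * B) * k - a / 2 := by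
        field_simp
      linarith
    have hN0 : 0 < N := by linarith
    have h4 : Real.exp (-(a / (2 * B) * k)) ≤ N ^ (-c) := by
      rw [Real.rpow_neg hN0.le, Real.exp_neg]
      apply inv_anti₀ (Real.rpow_pos_of_pos hN0 c)
      calc N ^ c ≤ ((b : ℝ) ^ k) ^ c := Real.rpow_le_rpow hN0.le hNb hc0.le
        _ = Real.exp (c * Real.log b * k) := by
            rw [Real.rpow_def_of_pos (by positivity), Real.log_pow]
            congr 1
            ring
        _ ≤ _ := by
            apply Real.exp_le_exp.2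
            exact mul_le_mul_of_nonneg_right hc2 (Nat.cast_nonneg _)
    have h5 : N ^ (1 - c) = N * N ^ (-c) := by
      rw [sub_eq_add_neg, Real.rpow_add hN0, Real.rpow_one]
    rw [h5]
    calc N * (K * (2 * ((t : ℝ) + 1)) * Real.exp (-(a * t)))
        ≤ N * (K * (2 * ((1 + 2 / a) * Real.exp (a * t / 2))) * Real.exp (-(a * t))) := by
          apply mul_le_mul_of_nonneg_left _ hN0.le
          apply mul_le_mul_of_nonneg_right _ (Real.exp_pos _).le
          apply mul_le_mul_of_nonneg_left _ (by linarith)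
          linarith
      _ = N * (K * (2 * (1 + 2 / a))) * (Real.exp (a * t / 2) * Real.exp (-(a * t))) := by ring
      _ ≤ N * (K * (2 * (1 + 2 / a))) * (Real.exp (a / 2) * Real.exp (-(a / (2 * B) * k))) :=
          mul_le_mul_of_nonneg_left h3 (by positivity)
      _ ≤ N * (K * (2 * (1 + 2 / a))) * (Real.exp (a / 2) * N ^ (-c)) := by
          apply mul_le_mul_of_nonneg_left _ (by positivity)
          exact mul_le_mul_of_nonneg_left h4 (Real.exp_pos _).le
      _ = _ := by ring

/-- the trajectory follows the random model for `t` steps up to the factor `exp (η t)` -/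
def Prof (η : ℝ) (t n : ℕ) : Prop := ∀ j ≤ t,
  Real.exp (-(η * t)) * ((√3 / 2) ^ j * n) ≤ T^[j] n ∧
    (T^[j] n : ℝ) ≤ 2 * Real.exp (η * t) * ((√3 / 2) ^ j * n)

open Classical in
/-- **The trajectories of the integers with restricted digits.** -/
theorem profile {b : ℕ} (hb : 2 ≤ b) (hodd : Odd b) (η : ℝ) (hη : 0 < η) :
    ∃ (B : ℕ) (c C : ℝ), 1 ≤ B ∧ 0 < c ∧ c ≤ 1 / 2 ∧ 0 ≤ C ∧ ∀ k : ℕ, ∀ D : Fin k → Finset ℕ,
      (∀ i, ∀ d ∈ D i, d < b) → (∀ i, 2 ≤ (D i).card) →
      (((Dig b k D).filter (fun n => ¬ Prof η (k / B) n)).card : ℝ) ≤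
        C * ((Dig b k D).card : ℝ) ^ (1 - c) := by
  obtain ⟨B, K, hB, hK, h⟩ := atyp hb hodd η hη
  obtain ⟨c, C, hc0, hc1, hC, hs⟩ := saving hb (B := B) (by omega) (a := η ^ 2 / 4)
    (by positivity) K hK
  refine ⟨B, c, C + 1, by omega, hc0, hc1, by linarith, fun k D hD hD2 => ?_⟩
  set t := k / B with ht
  have hN1 : (1 : ℝ) ≤ (Dig b k D).card := by
    have h1 := Dig_ge D hD hD2
    have h2 : 1 ≤ 2 ^ k := Nat.one_le_two_pow
    exact_mod_cast h2.trans h1
  have hN0 : (0 : ℝ) ≤ (Dig b k D).card := by linarith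
  have hsub : (Dig b k D).filter (fun n => ¬ Prof η t n) ⊆
      (Dig b k D).filter (fun n => pv t n ∈ Bad t (η * t)) ∪ range (2 ^ t) := by
    intro n hn
    rw [Finset.mem_filter] at hn
    rw [Finset.mem_union, Finset.mem_filter, Finset.mem_range]
    by_contra hcon
    push Not at hcon
    obtain ⟨h1, h2⟩ := hcon
    apply hn.2
    intro j hj
    obtain ⟨h3, h4⟩ := size (k := t) (j := j) (x := n) hj (lam := η * t) (h1 hn.1)
    have hl3 : Real.log 3 < 2 := by
      have h5 : Real.log 3 = 2 * Real.log (√3) := by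
        rw [Real.log_sqrt (by norm_num)]
        ring
      have h6 := Real.log_le_sub_one_of_pos (show (0 : ℝ) < √3 by positivity)
      have h7 : √3 < 2 := by
        rw [Real.sqrt_lt' (by norm_num)]
        norm_num
      linarith
    have hηt : 0 ≤ η * t := by positivity
    have hr : (0 : ℝ) < (√3 / 2) ^ j := by positivity
    have hn0 : (0 : ℝ) ≤ n := Nat.cast_nonneg _
    have hl3' : 0 < Real.log 3 := Real.log_pos (by norm_num)
    constructor
    · refine le_trans ?_ h3
      have h5 : Real.exp (-(η * t)) ≤ Real.exp (-(η * t / 2 * Real.log 3)) := by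
        apply Real.exp_le_exp.2
        nlinarith
      calc Real.exp (-(η * t)) * ((√3 / 2) ^ j * n)
          ≤ Real.exp (-(η * t / 2 * Real.log 3)) * ((√3 / 2) ^ j * n) :=
            mul_le_mul_of_nonneg_right h5 (by positivity)
        _ = _ := by ring
    · refine h4.trans ?_
      have h5 : Real.exp (η * t / 2 * Real.log 3) ≤ Real.exp (η * t) := by
        apply Real.exp_le_exp.2
        nlinarith
      have h6 : (n : ℝ) + 2 ^ j ≤ 2 * n := by
        have h7 : 2 ^ j ≤ n := (Nat.pow_le_pow_right (by norm_num) hj).trans h2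
        have h8 : (2 : ℝ) ^ j ≤ n := by exact_mod_cast h7
        linarith
      calc (√3 / 2) ^ j * Real.exp (η * t / 2 * Real.log 3) * (n + 2 ^ j)
          ≤ (√3 / 2) ^ j * Real.exp (η * t) * (2 * n) := by
            apply mul_le_mul (mul_le_mul_of_nonneg_left h5 hr.le) h6 (by positivity) (by positivity)
        _ = _ := by ring
  have h1 : (((Dig b k D).filter (fun n => ¬ Prof η t n)).card : ℝ) ≤
      ((Dig b k D).filter (fun n => pv t n ∈ Bad t (η * t))).card + 2 ^ t := by
    have h2 := (Finset.card_le_card hsub).trans (Finset.card_union_le _ _)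
    rw [Finset.card_range] at h2
    exact_mod_cast h2
  have h2 := h k D hD hD2
  rw [← ht] at h2
  have e1 : η ^ 2 * (t : ℝ) / 4 = η ^ 2 / 4 * t := by ring
  rw [e1] at h2
  have h3 := hs k (Dig b k D).card hN1 (by exact_mod_cast Dig_le D)
  rw [← ht] at h3
  have h4 : (2 : ℝ) ^ t ≤ ((Dig b k D).card : ℝ) ^ (1 - c) := by
    have h5 : (2 : ℝ) ^ t ≤ ((Dig b k D).card : ℝ) ^ ((1 : ℝ) / 2) := by
      have h6 : (2 : ℝ) ^ (2 * t) ≤ (Dig b k D).card := by
        have h7 : 2 ^ (2 * t) ≤ 2 ^ k := by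
          apply Nat.pow_le_pow_right (by norm_num)
          have h8 : t * B ≤ k := Nat.div_mul_le_self k B
          have h9 : t * 2 ≤ t * B := Nat.mul_le_mul_left t hB
          omega
        exact_mod_cast h7.trans (Dig_ge D hD hD2)
      rw [← Real.sqrt_eq_rpow]
      apply Real.le_sqrt_of_sq_le
      rw [← pow_mul, mul_comm]
      exact h6
    refine h5.trans (Real.rpow_le_rpow_of_exponent_le hN1 (by linarith))
  calc (((Dig b k D).filter (fun n => ¬ Prof η t n)).card : ℝ) ≤ _ := h1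
    _ ≤ C * ((Dig b k D).card : ℝ) ^ (1 - c) + ((Dig b k D).card : ℝ) ^ (1 - c) :=
        add_le_add (h2.trans h3) h4
    _ = _ := by ring

open Classical in
/-- **Descent.** -/
theorem descent {b : ℕ} (hb : 2 ≤ b) (hodd : Odd b) :
    ∃ c C : ℝ, 0 < c ∧ c ≤ 1 / 2 ∧ ∀ k : ℕ, ∀ D : Fin k → Finset ℕ,
      (∀ i, ∀ d ∈ D i, d < b) → (∀ i, 2 ≤ (D i).card) →
      (((Dig b k D).filter (fun n => ¬ ∃ j : ℕ, (Col^[j] n : ℝ) ≤ (n : ℝ) ^ (1 - c))).card : ℝ) ≤
        C * ((Dig b k D).card : ℝ) ^ (1 - c) := by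
  have hb1 : (1 : ℝ) < b := by exact_mod_cast (by omega : 1 < b)
  have hb0 : (0 : ℝ) < b := by linarith
  have hlb : 0 < Real.log b := Real.log_pos hb1
  set L := Real.log (2 / √3) with hL
  have hL0 : 0 < L := by
    apply Real.log_pos
    rw [one_lt_div (by positivity), Real.sqrt_lt' (by norm_num)]
    norm_num
  obtain ⟨B, c, C, hB, hc0, hc1, hC, h⟩ := profile hb hodd (L / 2) (by positivity)
  have hB0 : (0 : ℝ) < B := by exact_mod_cast hB
  set c1 := min c (L / 4 / (B * Real.log b)) with hc1'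
  have hc10 : 0 < c1 := lt_min hc0 (by positivity)
  have hc1c : c1 ≤ c := min_le_left _ _
  have hc1L : c1 * Real.log b ≤ L / 4 / B := by
    have h1 := min_le_right c (L / 4 / (B * Real.log b))
    rw [← hc1'] at h1
    rw [le_div_iff₀ (by positivity)] at h1
    rw [le_div_iff₀ hB0]
    nlinarith
  obtain ⟨k0, hk0⟩ := exists_nat_ge (4 * B * (Real.log 2 + L / 2) / L)
  refine ⟨c1, C + (b : ℝ) ^ k0, hc10, hc1c.trans hc1, fun k D hD hD2 => ?_⟩
  have hN1 : (1 : ℝ) ≤ (Dig b k D).card := by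
    have h1 := Dig_ge D hD hD2
    have h2 : 1 ≤ 2 ^ k := Nat.one_le_two_pow
    exact_mod_cast h2.trans h1
  have hN2 : (1 : ℝ) ≤ ((Dig b k D).card : ℝ) ^ (1 - c1) :=
    Real.one_le_rpow hN1 (by linarith)
  rcases Nat.lt_or_ge k k0 with hk | hk
  · have h1 : (((Dig b k D).filter (fun n => ¬ ∃ j : ℕ, (Col^[j] n : ℝ) ≤
        (n : ℝ) ^ (1 - c1))).card : ℝ) ≤ (b : ℝ) ^ k := by
      have h2 := (Finset.card_filter_le (Dig b k D) (fun n => ¬ ∃ j : ℕ, (Col^[j] n : ℝ) ≤
        (n : ℝ) ^ (1 - c1))).trans (Dig_le D)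
      exact_mod_cast h2
    have h2 : (b : ℝ) ^ k ≤ (b : ℝ) ^ k0 := pow_le_pow_right₀ hb1.le hk.le
    have h3 : 0 ≤ (b : ℝ) ^ k0 := by positivity
    calc _ ≤ (b : ℝ) ^ k0 * 1 := by rw [mul_one]; exact h1.trans h2
      _ ≤ (C + (b : ℝ) ^ k0) * ((Dig b k D).card : ℝ) ^ (1 - c1) :=
          mul_le_mul (by linarith) hN2 zero_le_one (by linarith)
  · set t := k / B with ht
    have hsub : (Dig b k D).filter (fun n => ¬ ∃ j : ℕ, (Col^[j] n : ℝ) ≤ (n : ℝ) ^ (1 - c1)) ⊆
        (Dig b k D).filter (fun n => ¬ Prof (L / 2) t n) := by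
      intro n hn
      rw [Finset.mem_filter] at hn ⊢
      refine ⟨hn.1, fun hp => hn.2 ?_⟩
      obtain ⟨o, ho⟩ := iter_T t n
      refine ⟨o, ?_⟩
      rw [← ho]
      refine (hp t (le_refl t)).2.trans ?_
      have hnb : n < b ^ k := by
        have := hn.1
        unfold Dig at this
        rw [Finset.mem_filter, Finset.mem_range] at this
        exact this.1
      rcases Nat.eq_zero_or_pos n with h0 | h0
      · rw [h0]
        simp only [Nat.cast_zero, mul_zero]
        exact Real.rpow_nonneg (le_refl _) _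
      have hn0 : (0 : ℝ) < n := by exact_mod_cast h0
      have h1 : (√3 / 2 : ℝ) ^ t = Real.exp (-(L * t)) := by
        have e1 : (√3 / 2 : ℝ) = Real.exp (-L) := by
          rw [hL, ← Real.log_inv, Real.exp_log (by positivity), inv_div]
        rw [e1, ← Real.exp_nat_mul]
        congr 1
        ring
      have h2 : (n : ℝ) ^ (1 - c1) = (n : ℝ) ^ (-c1) * n := by
        rw [sub_eq_add_neg, add_comm, Real.rpow_add hn0, Real.rpow_one]
      rw [h2, ← mul_assoc]
      apply mul_le_mul_of_nonneg_right _ hn0.le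
      rw [h1, mul_assoc, ← Real.exp_add]
      have h3 : (n : ℝ) ^ c1 ≤ Real.exp (L / 4 / B * k) := by
        calc (n : ℝ) ^ c1 ≤ ((b : ℝ) ^ k) ^ c1 :=
              Real.rpow_le_rpow hn0.le (by exact_mod_cast hnb.le) hc10.le
          _ = Real.exp (c1 * Real.log b * k) := by
              rw [Real.rpow_def_of_pos (by positivity), Real.log_pow]
              congr 1
              ring
          _ ≤ _ := by
              apply Real.exp_le_exp.2
              exact mul_le_mul_of_nonneg_right hc1L (Nat.cast_nonneg _)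
      have h4 : Real.exp (-(L / 4 / B * k)) ≤ (n : ℝ) ^ (-c1) := by
        rw [Real.rpow_neg hn0.le, Real.exp_neg]
        exact inv_anti₀ (Real.rpow_pos_of_pos hn0 c1) h3
      refine le_trans ?_ h4
      have h5 : (2 : ℝ) = Real.exp (Real.log 2) := (Real.exp_log (by norm_num)).symm
      rw [h5, ← Real.exp_add]
      apply Real.exp_le_exp.2
      rw [← h5]
      have h6 : (k : ℝ) / B - 1 ≤ t := by
        have h2 : k < B * t + B := by
          rw [ht]
          exact Nat.lt_mul_div_succ k (by omega)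
        rw [sub_le_iff_le_add, div_le_iff₀ hB0]
        have h3 : (k : ℝ) < B * t + B := by exact_mod_cast h2
        linarith
      have h7 : 4 * B * (Real.log 2 + L / 2) / L ≤ k := by
        refine hk0.trans ?_
        exact_mod_cast hk
      rw [div_le_iff₀ hL0] at h7
      have h8 : Real.log 2 + L / 2 ≤ L / 4 / B * k := by
        rw [div_div, div_mul_eq_mul_div, le_div_iff₀ (by positivity)]
        linarith
      have h9 : L / 2 * ((k : ℝ) / B - 1) = 2 * (L / 4 / B * k) - L / 2 := by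
        field_simp
        ring
      have h10 := mul_le_mul_of_nonneg_left h6 (by positivity : 0 ≤ L / 2)
      rw [h9] at h10
      linarith
    have h1 : (((Dig b k D).filter (fun n => ¬ ∃ j : ℕ, (Col^[j] n : ℝ) ≤
        (n : ℝ) ^ (1 - c1))).card : ℝ) ≤
        ((Dig b k D).filter (fun n => ¬ Prof (L / 2) t n)).card := by
      exact_mod_cast Finset.card_le_card hsub
    have h2 := h k D hD hD2
    rw [← ht] at h2
    have h3 : ((Dig b k D).card : ℝ) ^ (1 - c) ≤ ((Dig b k D).card : ℝ) ^ (1 - c1) :=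
      Real.rpow_le_rpow_of_exponent_le hN1 (by linarith)
    have h4 : 0 ≤ (b : ℝ) ^ k0 := by positivity
    calc _ ≤ _ := h1
      _ ≤ C * ((Dig b k D).card : ℝ) ^ (1 - c) := h2
      _ ≤ C * ((Dig b k D).card : ℝ) ^ (1 - c1) := mul_le_mul_of_nonneg_left h3 hC
      _ ≤ _ := by
          apply mul_le_mul_of_nonneg_right _ (by linarith)
          linarith

end Pool.Agent.Q263.MD
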